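import Pool.Agent.H752R3.FanCH
import Pool.Agent.Helper292.ForceCH

set_option autoImplicit false

/-!
The sequential fan `S_ω` inside `C_p(X)` for Menger spaces `X`.
-/

namespace Pool.Agent.Results.MP_b8a914_gt.FanIndependent

open Topology Pool.Agent.H752R3 Pool.Agent.H752R3.Fan

/-- (1) Under the continuum hypothesis there is a Rothberger (hence Menger) subspace `X` of the
Cantor space such that the sequential fan `S_ω` embeds into `C_p(X)`.  (2) The continuum hypothesis
can be forced, with `ω₁` preserved.  (3) If finite powers of separable metrizable Menger spaces are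
Menger, then `S_ω` embeds into `C_p(X)` for no Menger space `X`. -/
theorem result.{u} :
    (Cardinal.aleph 1 = Cardinal.continuum.{0} →
      ∃ X : Set (ℕ × ℕ → Bool), RothSp X ∧ MengerSp X ∧ ∃ f : Fan → Cp X, IsEmbedding f) ∧
    (∃ (P : Type) (_ : Preorder P), Nonempty P ∧ ∀ p : P,
      p ∈ Pool.Agent.Helper292.ForceCH.OmegaOnePreserved P ∧
      p ∈ Pool.Agent.Helper292.ForceCH.CHHolds P) ∧
    (PowersMenger → ∀ (X : Type u) [TopologicalSpace X], MengerSp X →
      ¬ ∃ f : Fan → Cp X, IsEmbedding f) := by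
  refine ⟨fun hCH => exists_fan hCH, ?_, fun hP X _ hX => no_embedding hP hX⟩
  obtain ⟨P, i, h1, h2⟩ := Pool.Agent.Helper292.ForceCH.exists_forcing
  exact ⟨P, i, h1, fun p => ⟨(h2 p).1, (h2 p).2.2⟩⟩

end Pool.Agent.Results.MP_b8a914_gt.FanIndependent
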